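import Pool.Agent.helper91.RB.Spec3

set_option autoImplicit false

namespace Pool.Agent.RB

open NumberField IsDedekindDomain Module
open scoped nonZeroDivisors Real Classical

theorem CCJ_sur (k K : Type) [Field k] [NumberField k] [Field K] [NumberField K] [Algebra k K]
    [Algebra.IsQuadraticExtension k K] [IsTotallyReal k] [IsCMField K] (z : maximalRealSubfield K) :
    ∃ y : k, (z : K) = algebraMap k K y :=
  ⟨(CMExtension.equivMaximalRealSubfield k K).symm z,
    (CMExtension.algebraMap_equivMaximalRealSubfield_symm_apply k K z).symm⟩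

theorem CCJ_eq (K : Type) [Field K] [NumberField K] [IsCMField K]
    (c : K ≃ₐ[maximalRealSubfield K] K) (hc : c ≠ 1) : c = IsCMField.complexConj K := by
  have h1 : c ∈ Subgroup.zpowers (IsCMField.complexConj K) := by
    rw [IsCMField.zpowers_complexConj_eq_top]
    exact Subgroup.mem_top _
  have h2 : (IsCMField.complexConj K) ^ 2 = 1 := by
    have := pow_orderOf_eq_one (IsCMField.complexConj K)
    rwa [IsCMField.orderOf_complexConj] at this
  obtain ⟨n, hn⟩ := Subgroup.mem_zpowers_iff.mp h1
  rcases Int.even_or_odd' n with ⟨m, hm | hm⟩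
  · exfalso
    apply hc
    rw [← hn, hm, zpow_mul, zpow_ofNat, h2, one_zpow]
  · rw [← hn, hm, zpow_add, zpow_mul, zpow_ofNat, h2, one_zpow, one_mul, zpow_one]

theorem CCJ : CCJ_stmt := by
  intro k K _ _ _ _ _ _ _ _ c hc hfix
  have hz : ∀ z : maximalRealSubfield K, c (algebraMap (maximalRealSubfield K) K z) =
      algebraMap (maximalRealSubfield K) K z := by
    intro z
    obtain ⟨y, hy⟩ := CCJ_sur k K z
    have : algebraMap (maximalRealSubfield K) K z = algebraMap k K y := hy
    rw [this, hfix]
  let c' : K ≃ₐ[maximalRealSubfield K] K := AlgEquiv.ofRingEquiv (f := c) hz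
  have hc1 : ∀ x, c' x = c x := fun x => rfl
  have hc2 : c' ≠ 1 := by
    intro h
    apply hc
    ext x
    rw [← hc1 x, h]
    rfl
  have h3 := CCJ_eq K c' hc2
  have h4 : ∀ x : K, c x = IsCMField.complexConj K x := by
    intro x
    rw [← hc1 x, h3]
  refine ⟨h4, fun x => ?_, fun φ x => ?_, fun x hx => ?_⟩
  · rw [h4, h4, IsCMField.complexConj_apply_apply]
  · rw [h4, IsCMField.complexEmbedding_complexConj]
  · rw [h4, IsCMField.complexConj_eq_self_iff] at hx
    exact CCJ_sur k K ⟨x, hx⟩

end Pool.Agent.RB
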